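import Pool.Agent.Helper20.RG.St3

/-!
# Project RG, module FRM: one frame of the boundary of a convex set
-/

set_option autoImplicit false

open MeasureTheory Set Filter Topology
open scoped ENNReal RealInnerProductSpace

namespace Pool.Agent.Helper38.RG

open Pool.Agent.Helper20.RG
open Pool.Agent.Helper68.LM (Pl BB Bd Av HL ft fm DQ)

private lemma ip (x y : Pl) : ⟪x, y⟫ = x 0 * y 0 + x 1 * y 1 := by
  simp [PiLp.inner_apply, Fin.sum_univ_two]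
  ring

/-- decomposition in an orthonormal frame -/
private lemma dec (u v : Pl) (hu : ‖u‖ = 1) (hv : ‖v‖ = 1) (huv : ⟪u, v⟫ = 0) (y : Pl) :
    y = ⟪y, u⟫ • u + ⟪y, v⟫ • v := by
  have h1 : u 0 * u 0 + u 1 * u 1 = 1 := by
    rw [← ip, real_inner_self_eq_norm_sq, hu, one_pow]
  have h2 : v 0 * v 0 + v 1 * v 1 = 1 := by
    rw [← ip, real_inner_self_eq_norm_sq, hv, one_pow]
  have h3 : u 0 * v 0 + u 1 * v 1 = 0 := by
    rw [← ip, huv]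
  obtain ⟨D, hD, hv0, hv1⟩ : ∃ D : ℝ, D * D = 1 ∧ v 0 = -D * u 1 ∧ v 1 = D * u 0 := by
    refine ⟨u 0 * v 1 - u 1 * v 0, ?_, ?_, ?_⟩
    · linear_combination (v 0 * v 0 + v 1 * v 1) * h1 + h2 - (u 0 * v 0 + u 1 * v 1) * h3
    · linear_combination (-v 0) * h1 + u 0 * h3
    · linear_combination (-v 1) * h1 + u 1 * h3
  ext i
  fin_cases i
  · simp only [ip, Fin.zero_eta, Fin.isValue, PiLp.add_apply, PiLp.smul_apply, smul_eq_mul]
    rw [hv0, hv1]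
    linear_combination (-y 0) * h1 - (y 0 * u 1 * u 1 - y 1 * u 0 * u 1) * hD
  · simp only [ip, Fin.mk_one, Fin.isValue, PiLp.add_apply, PiLp.smul_apply, smul_eq_mul]
    rw [hv0, hv1]
    linear_combination (-y 1) * h1 - (y 1 * u 0 * u 0 - y 0 * u 0 * u 1) * hD

private def Bs (Ω : Set Pl) (u v : Pl) : Set Pl :=
  {y | y ∈ frontier Ω ∧ ∃ τ : ℝ, |τ| ≤ 1 ∧ ∀ z ∈ Ω, 0 ≤ ⟪z - y, v - τ • u⟫}

private lemma ex (z y u v : Pl) (τ : ℝ) :
    ⟪z - y, v - τ • u⟫ = (⟪z, v⟫ - ⟪y, v⟫) - τ * (⟪z, u⟫ - ⟪y, u⟫) := by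
  simp only [inner_sub_left, inner_sub_right, inner_smul_right]

private lemma clos (Ω : Set Pl) (y n : Pl) (h : ∀ z ∈ Ω, 0 ≤ ⟪z - y, n⟫) :
    ∀ z ∈ closure Ω, 0 ≤ ⟪z - y, n⟫ := by
  intro z hz
  have hc : IsClosed {z : Pl | 0 ≤ ⟪z - y, n⟫} := isClosed_le continuous_const (by fun_prop)
  exact closure_minimal h hc hz

private lemma co (u v : Pl) (hu : ‖u‖ = 1) (hv : ‖v‖ = 1) (huv : ⟪u, v⟫ = 0) (t b : ℝ) :
    ⟪t • u + b • v, u⟫ = t ∧ ⟪t • u + b • v, v⟫ = b := by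
  have h1 : ⟪u, u⟫ = (1 : ℝ) := by rw [real_inner_self_eq_norm_sq, hu, one_pow]
  have h2 : ⟪v, v⟫ = (1 : ℝ) := by rw [real_inner_self_eq_norm_sq, hv, one_pow]
  have h3 : ⟪v, u⟫ = (0 : ℝ) := by rw [real_inner_comm, huv]
  constructor
  · rw [inner_add_left, real_inner_smul_left, real_inner_smul_left, h1, h3]
    ring
  · rw [inner_add_left, real_inner_smul_left, real_inner_smul_left, h2, huv]
    ring

/-- two points of the lower part -/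
private lemma two (Ω : Set Pl) (u v : Pl) (y y' : Pl) (τ : ℝ)
    (h : ∀ z ∈ Ω, 0 ≤ ⟪z - y, v - τ • u⟫) (h' : y' ∈ frontier Ω) :
    τ * (⟪y', u⟫ - ⟪y, u⟫) ≤ ⟪y', v⟫ - ⟪y, v⟫ := by
  have := clos Ω y _ h y' (frontier_subset_closure h')
  rw [ex] at this
  linarith

private lemma uniq (Ω : Set Pl) (u v : Pl) (hu : ‖u‖ = 1) (hv : ‖v‖ = 1) (huv : ⟪u, v⟫ = 0)
    (y y' : Pl) (h : y ∈ Bs Ω u v) (h' : y' ∈ Bs Ω u v) (e : ⟪y, u⟫ = ⟪y', u⟫) : y = y' := by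
  obtain ⟨hf, τ, -, hτ⟩ := h
  obtain ⟨hf', τ', -, hτ'⟩ := h'
  have h1 := two Ω u v y y' τ hτ hf'
  have h2 := two Ω u v y' y τ' hτ' hf
  rw [e, sub_self, mul_zero] at h1 h2
  rw [dec u v hu hv huv y, dec u v hu hv huv y', e, le_antisymm (by linarith) (by linarith :
    ⟪y', v⟫ ≤ ⟪y, v⟫)]

private lemma mid (Ω : Set Pl) (u v : Pl) (hO : IsOpen Ω) (hc : Convex ℝ Ω)
    (hb : Bornology.IsBounded Ω) (hu : ‖u‖ = 1) (hv : ‖v‖ = 1) (huv : ⟪u, v⟫ = 0) (y₁ y₂ : Pl)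
    (h₁ : y₁ ∈ Bs Ω u v) (h₂ : y₂ ∈ Bs Ω u v) (t : ℝ) (ht₁ : ⟪y₁, u⟫ < t) (ht₂ : t < ⟪y₂, u⟫) :
    ∃ y ∈ Bs Ω u v, ⟪y, u⟫ = t := by
  obtain ⟨hf₁, τ₁, hτ₁, hs₁⟩ := h₁
  obtain ⟨hf₂, τ₂, hτ₂, hs₂⟩ := h₂
  have hcont : Continuous (fun z : Pl => (⟪z, u⟫ : ℝ)) := by fun_prop
  obtain ⟨z₁, hz₁', hz₁⟩ := mem_closure_iff.mp (frontier_subset_closure hf₁) {z : Pl | ⟪z, u⟫ < t}
    (isOpen_lt hcont continuous_const) ht₁
  obtain ⟨z₂, hz₂', hz₂⟩ := mem_closure_iff.mp (frontier_subset_closure hf₂) {z : Pl | t < ⟪z, u⟫}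
    (isOpen_lt continuous_const hcont) ht₂
  obtain ⟨z, hz, hzt⟩ : ∃ z ∈ Ω, ⟪z, u⟫ = t := by
    have hpre : ((fun z : Pl => (⟪z, u⟫ : ℝ)) '' Ω).OrdConnected :=
      (hc.isPreconnected.image _ hcont.continuousOn).ordConnected
    have := hpre.out (mem_image_of_mem _ hz₁) (mem_image_of_mem _ hz₂)
      (⟨le_of_lt hz₁', le_of_lt hz₂'⟩ : t ∈ Icc (⟪z₁, u⟫ : ℝ) (⟪z₂, u⟫ : ℝ))
    obtain ⟨z, hz, e⟩ := this
    exact ⟨z, hz, e⟩
  have hline : Continuous (fun s : ℝ => t • u + s • v) := by fun_prop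
  set S : Set ℝ := {s : ℝ | t • u + s • v ∈ closure Ω} with hS
  have hScl : IsClosed S := isClosed_closure.preimage hline
  have hSb : Bornology.IsBounded S := by
    obtain ⟨R, hR⟩ := hb.closure.exists_norm_le
    rw [isBounded_iff_forall_norm_le]
    refine ⟨R, fun s hs => ?_⟩
    have h1 := hR _ hs
    have h2 : s = ⟪t • u + s • v, v⟫ := (co u v hu hv huv t s).2.symm
    calc ‖s‖ = ‖(⟪t • u + s • v, v⟫ : ℝ)‖ := by rw [← h2]
      _ ≤ ‖t • u + s • v‖ * ‖v‖ := norm_inner_le_norm _ _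
      _ ≤ R := by rw [hv, mul_one]; exact h1
  have hSc : IsCompact S := Metric.isCompact_of_isClosed_isBounded hScl hSb
  have hzS : ⟪z, v⟫ ∈ S := by
    change t • u + ⟪z, v⟫ • v ∈ closure Ω
    rw [← hzt, ← dec u v hu hv huv z]
    exact subset_closure hz
  obtain ⟨b, hbS, hbl⟩ := hSc.exists_isLeast ⟨_, hzS⟩
  set y : Pl := t • u + b • v with hy
  have hyu : ⟪y, u⟫ = t := (co u v hu hv huv t b).1
  have hyv : ⟪y, v⟫ = b := (co u v hu hv huv t b).2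
  have hyO : y ∉ Ω := by
    intro h
    have hop : IsOpen {s : ℝ | t • u + s • v ∈ Ω} := hO.preimage hline
    obtain ⟨ε, hε, hball⟩ := Metric.isOpen_iff.mp hop b h
    have hmem : b - ε / 2 ∈ {s : ℝ | t • u + s • v ∈ Ω} := by
      apply hball
      rw [Metric.mem_ball, Real.dist_eq]
      rw [abs_lt]
      constructor <;> linarith
    have := hbl (subset_closure hmem : b - ε / 2 ∈ S)
    linarith
  have hyf : y ∈ frontier Ω := ⟨hbS, by rw [hO.interior_eq]; exact hyO⟩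
  obtain ⟨f, hf⟩ := geometric_hahn_banach_open_point hc hO hyO
  have hfw : ∀ w : Pl, f w = ⟪w, u⟫ * f u + ⟪w, v⟫ * f v := by
    intro w
    conv_lhs => rw [dec u v hu hv huv w]
    rw [map_add, map_smul, map_smul, smul_eq_mul, smul_eq_mul]
  have hlt : ∀ w ∈ Ω, (⟪w, u⟫ - t) * f u + (⟪w, v⟫ - b) * f v < 0 := by
    intro w hw
    have := hf w hw
    rw [hfw w, hfw y, hyu, hyv] at this
    linarith
  have hfv : f v < 0 := by
    have h1 := hlt z hz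
    rw [hzt, sub_self, zero_mul, zero_add] at h1
    have h2 : b ≤ ⟪z, v⟫ := hbl hzS
    by_contra hcon
    push Not at hcon
    have := mul_nonneg (sub_nonneg.mpr h2) hcon
    linarith
  set τ : ℝ := - f u / f v with hτ
  have hfu : f u = - τ * f v := by
    rw [hτ, neg_div, neg_neg, div_mul_cancel₀ _ hfv.ne]
  have hsup : ∀ w ∈ Ω, 0 ≤ ⟪w - y, v - τ • u⟫ := by
    intro w hw
    rw [ex, hyu, hyv]
    have h1 := hlt w hw
    rw [hfu] at h1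
    have h2 : ((⟪w, v⟫ - b) - τ * (⟪w, u⟫ - t)) * f v < 0 := by
      calc ((⟪w, v⟫ - b) - τ * (⟪w, u⟫ - t)) * f v = (⟪w, u⟫ - t) * (- τ * f v) + (⟪w, v⟫ - b) * f v := by ring
        _ < 0 := h1
    by_contra hcon
    push Not at hcon
    have := mul_pos_of_neg_of_neg hcon hfv
    linarith
  refine ⟨y, ⟨hyf, τ, ?_, hsup⟩, hyu⟩
  have e1 := two Ω u v y y₁ τ hsup hf₁
  have e2 := two Ω u v y₁ y τ₁ hs₁ hyf
  have e3 := two Ω u v y y₂ τ hsup hf₂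
  have e4 := two Ω u v y₂ y τ₂ hs₂ hyf
  rw [hyu] at e1 e2 e3 e4
  have g1 : (τ₁ - τ) * (t - ⟪y₁, u⟫) ≤ 0 := by nlinarith
  have g2 : (τ - τ₂) * (⟪y₂, u⟫ - t) ≤ 0 := by nlinarith
  have k1 : τ₁ ≤ τ := by
    by_contra hcon
    push Not at hcon
    have := mul_pos (sub_pos.mpr hcon) (sub_pos.mpr ht₁)
    linarith
  have k2 : τ ≤ τ₂ := by
    by_contra hcon
    push Not at hcon
    have := mul_pos (sub_pos.mpr hcon) (sub_pos.mpr ht₂)
    linarith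
  rw [abs_le] at hτ₁ hτ₂ ⊢
  exact ⟨by linarith [hτ₁.1], by linarith [hτ₂.2]⟩

/-- **FRM** -/
theorem hFRM : StGEX → StFRM := by
  intro hGEX Ω u v hO hc hb hne hu hv huv
  have := Measure.nullSingletonClass_hausdorff Pl (d := 1) one_pos
  change (μH[1] : Measure Pl) (Bs Ω u v) = 0 ∨ ∃ (P : Pl) (ℓ : ℝ) (φ τ : ℝ → ℝ),
    Piece Ω P u v ℓ φ τ ∧
      (μH[1] : Measure Pl) (Bs Ω u v \ ((fun t => P + t • u + φ t • v) '' Icc 0 ℓ)) = 0
  set T : Set ℝ := {t | ∃ y ∈ Bs Ω u v, ⟪y, u⟫ = t} with hT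
  have hcont : Continuous (fun z : Pl => (⟪z, u⟫ : ℝ)) := by fun_prop
  by_cases hsub : T.Subsingleton
  · left
    apply Set.Subsingleton.measure_zero
    intro y hy y' hy'
    exact uniq Ω u v hu hv huv y y' hy hy' (hsub ⟨y, hy, rfl⟩ ⟨y', hy', rfl⟩)
  · right
    rw [Set.not_subsingleton_iff] at hsub
    obtain ⟨a₁, ha₁, a₂, ha₂, ha⟩ := hsub.exists_lt
    -- boundedness
    obtain ⟨R, hR⟩ := hb.closure.exists_norm_le
    have hTR : ∀ t ∈ T, |t| ≤ R := by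
      rintro t ⟨y, hy, rfl⟩
      calc |(⟪y, u⟫ : ℝ)| ≤ ‖y‖ * ‖u‖ := abs_real_inner_le_norm _ _
        _ ≤ R := by rw [hu, mul_one]; exact hR y (frontier_subset_closure hy.1)
    have hbb : BddBelow T := ⟨-R, fun t ht => (abs_le.mp (hTR t ht)).1⟩
    have hba : BddAbove T := ⟨R, fun t ht => (abs_le.mp (hTR t ht)).2⟩
    have hTne : T.Nonempty := ⟨a₁, ha₁⟩
    set α := sInf T with hα
    set β := sSup T with hβ
    have hαβ : α < β := lt_of_le_of_lt (csInf_le hbb ha₁) (lt_of_lt_of_le ha (le_csSup hba ha₂))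
    have hIoo : ∀ t ∈ Ioo α β, t ∈ T := by
      rintro t ⟨h1, h2⟩
      obtain ⟨s₁, hs₁, l1⟩ := exists_lt_of_csInf_lt hTne h1
      obtain ⟨s₂, hs₂, l2⟩ := exists_lt_of_lt_csSup hTne h2
      obtain ⟨y₁, hy₁, rfl⟩ := hs₁
      obtain ⟨y₂, hy₂, rfl⟩ := hs₂
      exact mid Ω u v hO hc hb hu hv huv y₁ y₂ hy₁ hy₂ t l1 l2
    -- choice
    have hch : ∀ t : ℝ, ∃ (y : Pl) (τ : ℝ), t ∈ T → (y ∈ frontier Ω ∧ ⟪y, u⟫ = t ∧ |τ| ≤ 1 ∧
        ∀ z ∈ Ω, 0 ≤ ⟪z - y, v - τ • u⟫) := by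
      intro t
      by_cases h : t ∈ T
      · obtain ⟨y, ⟨hy, τ, h1, h2⟩, e⟩ := h
        exact ⟨y, τ, fun _ => ⟨hy, e, h1, h2⟩⟩
      · exact ⟨0, 0, fun h' => absurd h' h⟩
    choose Y τ₀ hY using hch
    have hYB : ∀ t ∈ T, Y t ∈ Bs Ω u v := fun t ht =>
      ⟨(hY t ht).1, τ₀ t, (hY t ht).2.2.1, (hY t ht).2.2.2⟩
    have hsl : ∀ t ∈ T, ∀ t' ∈ T, τ₀ t * (t' - t) ≤ ⟪Y t', v⟫ - ⟪Y t, v⟫ := by
      intro t ht t' ht'
      have := two Ω u v (Y t) (Y t') (τ₀ t) (hY t ht).2.2.2 (hY t' ht').1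
      rwa [(hY t ht).2.1, (hY t' ht').2.1] at this
    have hmem : ∀ t ∈ Ioo 0 (β - α), α + t ∈ T := fun t ht =>
      hIoo _ ⟨by linarith [ht.1], by linarith [ht.2]⟩
    obtain ⟨φ, τ, hgr, hag⟩ := hGEX (β - α) (fun t => ⟪Y (α + t), v⟫) (fun t => τ₀ (α + t))
      (by linarith) (fun t ht => (hY _ (hmem t ht)).2.2.1) (by
        intro t ht t' ht' htt
        constructor
        · have := hsl _ (hmem t ht) _ (hmem t' ht')
          have e : α + t' - (α + t) = t' - t := by ring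
          rwa [e] at this
        · have := hsl _ (hmem t' ht') _ (hmem t ht)
          have e : α + t - (α + t') = -(t' - t) := by ring
          rw [e, mul_neg] at this
          linarith)
    have hpt : ∀ t ∈ Ioo 0 (β - α), α • u + t • u + φ t • v = Y (α + t) := by
      intro t ht
      rw [(hag t ht).1]
      conv_rhs => rw [dec u v hu hv huv (Y (α + t)), (hY _ (hmem t ht)).2.1, add_smul]
    refine ⟨α • u, β - α, φ, τ, ⟨hu, hv, huv, by linarith, hgr, ?_, ?_⟩, ?_⟩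
    · intro t ht
      rw [hpt t ht]
      exact (hY _ (hmem t ht)).1
    · intro t ht z hz
      rw [hpt t ht, (hag t ht).2]
      exact (hY _ (hmem t ht)).2.2.2 z hz
    · have hss : Bs Ω u v \ ((fun t => α • u + t • u + φ t • v) '' Icc 0 (β - α)) ⊆
          {y | y ∈ Bs Ω u v ∧ ⟪y, u⟫ = α} ∪ {y | y ∈ Bs Ω u v ∧ ⟪y, u⟫ = β} := by
        rintro y ⟨hy, hny⟩
        have hyT : ⟪y, u⟫ ∈ T := ⟨y, hy, rfl⟩
        by_contra hcon
        rw [Set.mem_union, not_or] at hcon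
        have n1 : ⟪y, u⟫ ≠ α := fun h => hcon.1 ⟨hy, h⟩
        have n2 : ⟪y, u⟫ ≠ β := fun h => hcon.2 ⟨hy, h⟩
        have l1 : α < ⟪y, u⟫ := lt_of_le_of_ne (csInf_le hbb hyT) (Ne.symm n1)
        have l2 : ⟪y, u⟫ < β := lt_of_le_of_ne (le_csSup hba hyT) n2
        apply hny
        have ht : ⟪y, u⟫ - α ∈ Ioo 0 (β - α) := ⟨by linarith, by linarith⟩
        refine ⟨⟪y, u⟫ - α, ⟨ht.1.le, ht.2.le⟩, ?_⟩
        change α • u + (⟪y, u⟫ - α) • u + φ (⟪y, u⟫ - α) • v = y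
        rw [hpt _ ht]
        have e : α + (⟪y, u⟫ - α) = ⟪y, u⟫ := by ring
        rw [e]
        exact uniq Ω u v hu hv huv _ _ (hYB _ hyT) hy (hY _ hyT).2.1
      apply measure_mono_null hss
      rw [measure_union_null_iff]
      constructor
      · apply Set.Subsingleton.measure_zero
        rintro y ⟨hy, e⟩ y' ⟨hy', e'⟩
        exact uniq Ω u v hu hv huv y y' hy hy' (e.trans e'.symm)
      · apply Set.Subsingleton.measure_zero
        rintro y ⟨hy, e⟩ y' ⟨hy', e'⟩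
        exact uniq Ω u v hu hv huv y y' hy hy' (e.trans e'.symm)

end Pool.Agent.Helper38.RG
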